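import Pool.Agent.N101.ZQ.Stm

/-!
# Maximal atypical subvarieties and optimal subvarieties (leaf MA, helper341)

For all subvarieties `V` of all `Y(1)^ι` the number of the maximal atypical subvarieties is finite if and only if for
all Zariski closed subsets the number of the optimal subvarieties is finite.
-/

set_option autoImplicit false

namespace Pool.Agent.N101.ZQ

open Pool.Agent.N101.ZP Pool.Agent.N101.Y1 Pool.Agent.R948 H294ZP

variable {ι : Type} [Fintype ι]

/-- an atypical subvariety is a subvariety of `V` -/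
theorem AtypicalSub.sub {A V : Set (ι → ℂ)} (h : AtypicalSub A V) : Subvariety A ∧ A ⊆ V := by
  obtain ⟨Z, -, h1, -⟩ := h
  exact ⟨h1.1, h1.2.1.trans Set.inter_subset_right⟩

/-- a maximal atypical subvariety above a given atypical one -/
theorem exists_maxAtypical {W V : Set (ι → ℂ)} (hW : AtypicalSub W V) :
    ∃ A, MaxAtypical A V ∧ W ⊆ A := by
  let s : Set ℕ := {n | ∃ A, AtypicalSub A V ∧ W ⊆ A ∧ vdim A = n}
  have hs1 : s.Nonempty := ⟨_, W, hW, subset_rfl, rfl⟩
  have hs2 : BddAbove s := ⟨Fintype.card ι, by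
    rintro _ ⟨A, hA, -, rfl⟩
    exact vdim_le_card hA.sub.1⟩
  obtain ⟨A, h1, h2, h3⟩ := Nat.sSup_mem hs1 hs2
  refine ⟨A, ⟨h1, fun B hB hAB => ?_⟩, h2⟩
  by_contra hne
  have h4 : vdim B ∈ s := ⟨B, hB, h2.trans hAB, rfl⟩
  have h5 := le_csSup hs2 h4
  have h6 := vdim_strict h1.sub.1 hB.sub.1 (lt_of_le_of_ne hAB (Ne.symm hne))
  omega

/-- step 1: from subvarieties to Zariski closed subsets -/
theorem closed_of_sub (h : ∀ V : Set (ι → ℂ), Subvariety V → {A | Optimal A V}.Finite)
    {V : Set (ι → ℂ)} (hV : ZClosed V) : {A | Optimal A V}.Finite := by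
  refine (Set.Finite.biUnion (finite_comp hV) fun V' hV' => h V' hV'.1).subset fun A hA => ?_
  obtain ⟨V', hV', h2⟩ := exists_comp hA.1 hV hA.2.1
  refine Set.mem_iUnion₂.2 ⟨V', hV', hA.1, h2, ?_⟩
  intro B hB hAB hBV'
  exact hA.2.2 B hB hAB (hBV'.trans hV'.2.1)

/-- step 2: the statement of the problem from the finiteness of the maximal atypical subvarieties -/
theorem zilberPink_of_maxAtypical {V : Set (ι → ℂ)} (hV : Subvariety V)
    (h : {A | MaxAtypical A V}.Finite) : ZilberPink V := by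
  classical
  intro Z W hZ hW
  have h1 : ∀ A : Set (ι → ℂ), ∃ S, AtypicalSub A V → (Special S ∧ Atypical A S V) := by
    intro A
    by_cases hA : AtypicalSub A V
    · obtain ⟨S, h2, h3⟩ := hA
      exact ⟨S, fun _ => ⟨h2, h3⟩⟩
    · exact ⟨∅, fun h => absurd h hA⟩
  choose S hS using h1
  refine ⟨S '' {A | MaxAtypical A V}, h.image _, ?_, ?_⟩
  · rintro _ ⟨A, hA, rfl⟩
    obtain ⟨h2, h3, h4⟩ := hS A hA.1
    refine ⟨h2, fun h5 => ?_⟩
    rw [h5] at h3 h4
    have h6 := h3.2.2 V hV (h3.2.1.trans Set.inter_subset_right) (by rw [Set.univ_inter])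
    rw [vdim_univ, h6] at h4
    omega
  · refine Set.iUnion_subset fun n => ?_
    obtain ⟨A, hA, h2⟩ := exists_maxAtypical (V := V) ⟨Z n, hZ n, hW n⟩
    obtain ⟨h3, h4, -⟩ := hS A hA.1
    exact h2.trans ((h4.2.1.trans Set.inter_subset_left).trans
      (Set.subset_sUnion_of_mem ⟨A, hA, rfl⟩))

/-- step 3: maximal atypical subvarieties are optimal -/
theorem MaxAtypical.optimal {A V : Set (ι → ℂ)} (hV : Subvariety V) (h : MaxAtypical A V) :
    Optimal A V := by
  obtain ⟨⟨Z, hZ, hA, hd⟩, hmax⟩ := h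
  refine ⟨hA.1, hA.2.1.trans Set.inter_subset_right, fun B hB hAB hBV hdef => ?_⟩
  obtain ⟨S, h1, h2, h3⟩ := exists_special hB
  obtain ⟨W, hW, hBW⟩ := exists_comp hB (h1.sub.closed.inter hV.closed) (Set.subset_inter h2 hBV)
  have h4 := vdim_mono hB hW.1 hBW
  have h5 : rank hA.1 ≤ vdim Z := by
    rw [hZ.vdim_eq]
    exact rank_mono hA.1 hZ.sub (hA.2.1.trans Set.inter_subset_left)
  rw [defect_eq' hA.1, defect_eq' hB] at hdef
  have h6 : AtypicalSub W V := ⟨S, h1, hW, by omega⟩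
  have h7 := hmax W h6 (hAB.1.trans hBW)
  exact hAB.2 (by rw [← h7]; exact hBW)

/-- **Leaf MA.** -/
theorem ma : TaskMA := by
  constructor
  · intro H ι _ V hV
    refine closed_of_sub (fun V' hV' => ?_) hV
    exact optimal_of_zilberPink (fun κ _ V'' hV'' => zilberPink_of_maxAtypical hV'' (H κ V'' hV''))
      _ ι V' hV' le_rfl
  · intro H ι _ V hV
    exact (H ι V hV.closed).subset fun A hA => hA.optimal hV

end Pool.Agent.N101.ZQ
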